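import Pool.Agent.Y885.PD4

/-!
# The uniform asymptotic formula for prime pairs in a window of differences whose position is arbitrary up to very few
elements of an arbitrary set which meets every interval `[x, l x]`

Definition used: `Pool.Agent.H560R3.GB.C₂`, the twin prime constant `∏_{p > 2} (1 - 1 / (p - 1) ^ 2)`
(the infimum of the partial products).
-/

set_option autoImplicit false

namespace Pool.Agent.Results.MP_678834_nt.ElementsOfAnySet

open Finset Pool.Agent.H560R3.GB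

/-- `π₂(x, d)`: the number of primes `p ≤ x` for which `p - d` is a prime. -/
noncomputable def pi2 (x : ℝ) (d : ℕ) : ℕ :=
  ((range (⌊x⌋₊ + 1)).filter (fun p => p.Prime ∧ (p - d).Prime)).card

/-- `𝔖(d)`, for even `d > 0`. -/
noncomputable def 𝔖 (d : ℕ) : ℝ :=
  2 * C₂ * ∏ p ∈ d.primeFactors.filter (fun p => 3 ≤ p), ((p : ℝ) - 1) / ((p : ℝ) - 2)

/-- The maximum of the problem, for the even differences in the window `[m, m + log ^ A X]` instead of `[2, log ^ 2 x]`, is at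
most `20 log log x / log x` (in particular it is `o((log log x)⁻²)`), and this for all `x` between `X / log ^ W X`
and `X`. -/
def Holds (A W X m : ℕ) : Prop :=
  ∀ x : ℝ, X / Real.log X ^ W ≤ x → x ≤ X → ∀ d : ℕ, Even d → 2 ≤ d → m ≤ d → (d : ℝ) ≤ m + Real.log X ^ A →
    |(pi2 x d : ℝ) * Real.log x ^ 2 / (𝔖 d * x) - 1| ≤ 20 * Real.log (Real.log x) / Real.log x

/-- For all `l ≥ 2`, `A` and `W` there is a constant `K` such that for all `H` there is an `X₀` with the following property. Let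
`T` be an arbitrary set of integers which contains an element of every interval `[x, l x]`, `x ≥ 1` (the
constants `K` and `X₀` do not depend on `T`), let `X ≥ X₀`, and let `0 ≤ h ≤ X / log ^ (W + 10) X` be an arbitrary integer
(for example `h = 0`). Then there is a set `S` of at most `K (log log X) ^ 2` elements of `T`, all between
`log ^ H X` and `X / log ^ H X`, with an even sum, such that the uniform asymptotic formula `Holds A W X m` is true for
`m = h + ∑ S`. -/
theorem result (l A W : ℕ) (hl : 2 ≤ l) : ∃ K : ℝ, ∀ H : ℕ, ∃ X₀ : ℕ, ∀ T : Set ℕ,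
    (∀ x : ℕ, 1 ≤ x → ∃ a ∈ T, x ≤ a ∧ a ≤ l * x) → ∀ X : ℕ, X₀ ≤ X →
      ∀ h : ℕ, (h : ℝ) ≤ X / Real.log X ^ (W + 10) →
        ∃ S : Finset ℕ, (∀ a ∈ S, a ∈ T ∧ Real.log X ^ H ≤ a ∧ (a : ℝ) ≤ X / Real.log X ^ H) ∧
          (S.card : ℝ) ≤ K * Real.log (Real.log X) ^ 2 ∧ 2 ∣ ∑ a ∈ S, a ∧ Holds A W X (h + ∑ a ∈ S, a) := by
  classical
  obtain ⟨K, h0⟩ := Pool.Agent.Y885.las_pairsU l A W hl
  refine ⟨K, fun H => ?_⟩
  obtain ⟨X₀, h1⟩ := h0 H
  obtain ⟨n1, h2⟩ := Pool.Agent.H373R2.T7.ev_L' 10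
  obtain ⟨n2, h3⟩ := Pool.Agent.H373R2.T7.ev_log' (W + 1) 1
  refine ⟨X₀ + n1 + n2 + 3, fun T hT X hX h hh => ?_⟩
  obtain ⟨S, g1, g2, g3, g4⟩ := h1 T hT X (by omega) h hh
  refine ⟨S, g1, g2, g3, fun x hx1 hx2 d hd1 hd2 hd3 hd4 => ?_⟩
  have a2 := h2 X (by omega)
  have a3 := h3 X (by omega)
  rw [one_mul] at a3
  have hXpos : (0 : ℝ) < X := by exact_mod_cast (by omega : 0 < X)
  obtain ⟨M, hM⟩ : ∃ M, M = Real.log (X : ℝ) := ⟨_, rfl⟩
  have hx1' := hx1
  rw [← hM] at a2 a3 hx1'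
  have hM0 : 0 < M := by linarith
  have hMx : M ≤ x := by
    refine le_trans ?_ hx1'
    rw [le_div_iff₀ (by positivity)]
    calc M * M ^ W = M ^ (W + 1) := by ring
      _ ≤ √(X : ℝ) := a3
      _ ≤ X := by
        rw [Real.sqrt_le_left hXpos.le]
        have : (1 : ℝ) ≤ X := by exact_mod_cast (by omega : 1 ≤ X)
        nlinarith
  have hx0 : 0 < x := hM0.trans_le hMx
  have hx10 : 10 ≤ x := a2.trans hMx
  have hlogx : 0 < Real.log x := Real.log_pos (by linarith)
  have hg := g4 d hd3 hd4 hd1.two_dvd (by omega) x hx1 hx2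
  have e1 : 𝔖 d = sing d := by
    unfold 𝔖 sing
    congr 1
  have hs := Pool.Agent.W93.GB.one_le_sing d
  have e2 : Pool.Agent.W93.PP.pc d x 0 1 = pi2 x d := by
    unfold Pool.Agent.W93.PP.pc pi2
    refine card_bij (fun p _ => p + d) (fun p hp => ?_) (fun p _ q _ h => by simpa using h) (fun q hq => ?_)
    · rw [mem_filter] at hp ⊢
      refine ⟨?_, hp.2.2.1, by rw [Nat.add_sub_cancel]; exact hp.2.1⟩
      rw [mem_range, Nat.lt_succ_iff]
      apply Nat.le_floor
      push_cast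
      exact hp.2.2.2.1
    · rw [mem_filter, mem_range, Nat.lt_succ_iff] at hq
      have h5 : d ≤ q := by
        by_contra hcon
        push Not at hcon
        have := hq.2.2
        rw [Nat.sub_eq_zero_of_le hcon.le] at this
        exact Nat.not_prime_zero this
      refine ⟨q - d, ?_, Nat.sub_add_cancel h5⟩
      rw [mem_filter, mem_range, Nat.lt_succ_iff, Nat.sub_add_cancel h5]
      have h6 : (q : ℝ) ≤ x := (Nat.cast_le.2 hq.1).trans (Nat.floor_le hx0.le)
      refine ⟨(Nat.sub_le _ _).trans hq.1, hq.2.2, hq.2.1, ?_, Nat.modEq_one⟩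
      rw [Nat.cast_sub h5]
      linarith
  rw [e2] at hg
  rw [e1]
  obtain ⟨Sg, hSg⟩ : ∃ Sg, Sg = sing d := ⟨_, rfl⟩
  rw [← hSg] at hs hg ⊢
  obtain ⟨L, hL⟩ : ∃ L, L = Real.log x := ⟨_, rfl⟩
  rw [← hL] at hg hlogx ⊢
  have hSg0 : 0 < Sg := by linarith
  have e3 : (pi2 x d : ℝ) * L ^ 2 / (Sg * x) - 1 = ((pi2 x d : ℝ) - Sg * (x / L ^ 2)) / (Sg * (x / L ^ 2)) := by
    field_simp
  rw [e3, abs_div, abs_of_pos (by positivity : 0 < Sg * (x / L ^ 2)), div_le_iff₀ (by positivity)]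
  refine hg.trans (le_of_eq ?_)
  ring

end Pool.Agent.Results.MP_678834_nt.ElementsOfAnySet
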