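import Mathlib
import Pool.Agent.Y877.RgF

/-!
# Prime pairs of the right order for small multiples of almost all differences

Let `m_1, ..., m_{4M}` be distinct natural numbers and `b ≥ 1` such that the `b m_i` miss a residue class
modulo every prime. For all `ε, lam > 0` there is `κ > 0` such that for all large `x`, in every window
`(u, u + H]` with `H ≥ lam log x` and `u + H ≤ (log x) ^ C`, for all but at most `ε H` of the integers `k`
there is a set of at least `M` of the indices such that `π₂(x, d) ≥ κ S(d) x / (log x) ^ 2` for ALL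
differences `d = b (m_j - m_i) k` of indices in this set.
-/

set_option autoImplicit false

open Finset

namespace Pool.Agent.Results.MP_678834_nt.MultiplesOfAlmostAllDifferences

/-- the number of the primes `p ≤ x` for which `p - d` is a prime -/
def pi2 (x d : ℕ) : ℕ := ((Icc 1 x).filter (fun p => p.Prime ∧ (p - d).Prime)).card

/-- the product of `(p - 1) / (p - 2)` over the odd primes `p` dividing `d` -/
noncomputable def S (d : ℕ) : ℝ := ∏ p ∈ d.primeFactors.filter (fun p => 3 ≤ p), (((p : ℝ) - 1) / (p - 2))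

open Classical in
theorem result (M : ℕ) (hM : 1 ≤ M) (m : Fin (4 * M) → ℕ) (hm : Function.Injective m) (b : ℕ) (hb : 1 ≤ b)
    (hadm : ∀ p : ℕ, p.Prime → ∃ r : ℕ, ∀ i, ¬ b * m i ≡ r [MOD p]) (ε lam : ℝ) (hε : 0 < ε) (hlam : 0 < lam) :
    ∃ κ : ℝ, 0 < κ ∧ ∀ C : ℝ, ∃ x₀ : ℕ, ∀ x : ℕ, x₀ ≤ x → ∀ H u : ℕ, lam * Real.log x ≤ H →
      ((u : ℝ) + H ≤ Real.log x ^ C) →
      (1 - ε) * (H : ℝ) ≤ (((Ioc u (u + H)).filter (fun k => ∃ I : Finset (Fin (4 * M)), M ≤ I.card ∧
        ∀ i ∈ I, ∀ j ∈ I, m i < m j → κ * S (b * (m j - m i) * k) * (x / Real.log x ^ 2) ≤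
          pi2 x (b * (m j - m i) * k))).card : ℝ) := by
  obtain ⟨κ, hκ, h⟩ := Pool.Agent.Y877.RO.pairs2 M hM m hm b hb hadm ε lam hε hlam
  refine ⟨κ, hκ, fun C => ?_⟩
  obtain ⟨x₀, hx₀⟩ := Filter.eventually_atTop.1 (h C)
  refine ⟨x₀, fun x hx H u hH hu => ?_⟩
  have h1 := hx₀ x hx H u hH hu
  convert h1 <;> rfl

end Pool.Agent.Results.MP_678834_nt.MultiplesOfAlmostAllDifferences
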