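import Pool.Agent.Y987.SZ.Pair
import Pool.Agent.Y987.SZ.FormsU

set_option autoImplicit false

/-! # Prime pairs with difference `d`, uniformly in all even `d` up to any power of `X`

The number of primes `p ≤ X` with `p - d` almost prime, and the number with `p + d` almost prime, are at
least a constant times `S(d) X / log² X`, `S(d) = ∏ (p - 1) / (p - 2)` over the odd primes `p ∣ d`,
uniformly in all even `d ≤ X ^ A`; the same in every interval of length `X` for the integers `n` with `n`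
and `n - d` almost prime; and for every subset `T` of these `n` (for instance those for which `n`, `n - d`
are primes) all but `ε S(d) X / log² X` elements of `T` lie in progressions of `k` terms contained in `T`
with a difference of at most a power of `log X`, which depends only on `k`, `ε`, `A`.

Ingredients: the relative Szemerédi theorem for sets sifted by arbitrary classes (`Y843.HS`, helper843),
the number of primes sifted by arbitrary nonzero classes (`Y843.HG`, Bombieri-Vinogradov and the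
fundamental lemma), the fundamental lemma for classes in intervals (`Y151.HS`, helper151). -/

namespace Pool.Agent.Results.MP_678834_nt.UniformNarrowProgressions

open Finset

/-- `𝔖(d)` without the constant `2 C₂` -/
noncomputable def Sing (d : ℕ) : ℝ :=
  ∏ p ∈ d.primeFactors.filter (fun p : ℕ => 2 < p), (((p : ℝ) - 1) / ((p : ℝ) - 2))

/-- all prime factors of `m ≠ 0` are larger than `y` -/
def Rough (y : ℝ) (m : ℤ) : Prop := m ≠ 0 ∧ ∀ p : ℕ, p.Prime → (p : ℤ) ∣ m → y < p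

/-- `m` has at most `R` prime factors (with multiplicity), all larger than `y` -/
def AlmostPrime (R : ℕ) (y : ℝ) (m : ℤ) : Prop :=
  Rough y m ∧ m.natAbs.primeFactorsList.length ≤ R

/-- `n` is a term of a progression of `k` terms of `S` with a difference `q`, `1 ≤ q ≤ L` -/
def InAP (k : ℕ) (L : ℝ) (S : Set ℕ) (n : ℕ) : Prop :=
  ∃ a q : ℕ, 1 ≤ q ∧ (q : ℝ) ≤ L ∧ (∀ j < k, a + j * q ∈ S) ∧ ∃ j < k, n = a + j * q

theorem result : ∃ κ : ℝ, 0 < κ ∧ ∀ A : ℕ, ∃ (R X₁ : ℕ) (c : ℝ), 0 < c ∧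
    (∀ X : ℕ, X₁ ≤ X → ∀ d : ℕ, 0 < d → Even d → d ≤ X ^ A →
      c * (Sing d * (X / Real.log X ^ 2)) ≤ (Set.ncard {p : ℕ | p ≤ X ∧ p.Prime ∧
        AlmostPrime R ((X : ℝ) ^ κ) ((p : ℤ) - d)} : ℝ) ∧
      c * (Sing d * (X / Real.log X ^ 2)) ≤ (Set.ncard {p : ℕ | p ≤ X ∧ p.Prime ∧
        AlmostPrime R ((X : ℝ) ^ κ) ((p : ℤ) + d)} : ℝ) ∧
      ∀ N : ℕ, N ≤ X ^ A → c * (Sing d * (X / Real.log X ^ 2)) ≤ (Set.ncard {n : ℕ | N < n ∧ n ≤ N + X ∧
        AlmostPrime R ((X : ℝ) ^ κ) n ∧ AlmostPrime R ((X : ℝ) ^ κ) ((n : ℤ) - d)} : ℝ)) ∧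
    ∀ (k : ℕ) (ε : ℝ), 1 ≤ k → 0 < ε → ∃ B X₀ : ℕ, ∀ X N : ℕ, X₀ ≤ X → ∀ d : ℕ, 0 < d → Even d →
      d ≤ X ^ A →
      ∀ T : Set ℕ, (∀ n ∈ T, N < n ∧ n ≤ N + X ∧ Rough ((X : ℝ) ^ κ) n ∧
        Rough ((X : ℝ) ^ κ) ((n : ℤ) - d)) →
      (Set.ncard {n | n ∈ T ∧ ¬ InAP k (Real.log X ^ B) T n} : ℝ) ≤
        ε * (Sing d * (X / Real.log X ^ 2)) := by
  classical
  obtain ⟨κ1, hκ1, hκ1', hp⟩ := Pool.Agent.Y987.SZ.primes_SS 1
  obtain ⟨κ2, hκ2, hκ2', hi⟩ := Pool.Agent.Y987.SZ.int_SS 2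
  obtain ⟨c0, hc0, hpair⟩ := Pool.Agent.Y987.SZ.pair_SS
  set κ := min κ1 κ2 with hκ
  have hκ0 : 0 < κ := lt_min hκ1 hκ2
  have hκle : κ ≤ 1 := (min_le_left _ _).trans hκ1'
  have hSing : ∀ d, Sing d = Pool.Agent.Y987.SZ.Sd d := fun d => rfl
  -- the set of the shifts
  have hshift : ∀ (X A : ℕ) (d : ℕ) (s : ℤ), 0 < d → Even d → d ≤ X ^ A → s = 1 ∨ s = -1 →
      Pool.Agent.Y987.SZ.Shifts 2 (X ^ A) ({0, s * d} : Finset ℤ) := by
    intro X A d s hd hev hA hs
    obtain ⟨h1, h2, _⟩ := hpair d hd hev s hs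
    refine ⟨h1, ?_, h2⟩
    intro e he
    rw [mem_insert, mem_singleton] at he
    have hA' : (d : ℤ) ≤ ((X ^ A : ℕ) : ℤ) := by exact_mod_cast hA
    rcases he with rfl | rfl
    · rw [abs_zero]
      positivity
    · rw [abs_le]
      rcases hs with rfl | rfl <;> constructor <;> omega
  -- rough numbers
  have hrough : ∀ (y : ℝ) (n : ℕ) (a : ℤ), 2 ≤ y →
      (Pool.Agent.Y987.SZ.RoughD ({0, a} : Finset ℤ) y n ↔
        (Rough y (n : ℤ) ∧ Rough y ((n : ℤ) - a))) := by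
    intro y n a hy
    have h1 : ∀ d : ℤ, (∀ p : ℕ, p.Prime → (p : ℝ) ≤ y → ¬ (p : ℤ) ∣ (n : ℤ) - d) ↔
        Rough y ((n : ℤ) - d) := by
      intro d
      constructor
      · intro h
        refine ⟨?_, ?_⟩
        · intro h0
          apply h 2 Nat.prime_two (by push_cast; exact hy)
          rw [h0]
          exact dvd_zero _
        · intro p hp' hd
          by_contra hcon
          push Not at hcon
          exact h p hp' hcon hd
      · intro h p hp' hpy hd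
        have := h.2 p hp' hd
        linarith
    unfold Pool.Agent.Y987.SZ.RoughD
    constructor
    · intro h
      have h2 := (h1 0).1 (h 0 (by simp))
      rw [sub_zero] at h2
      exact ⟨h2, (h1 a).1 (h a (by simp))⟩
    · rintro ⟨h2, h3⟩ d hd
      rw [mem_insert, mem_singleton] at hd
      rcases hd with rfl | rfl
      · apply (h1 0).2
        rw [sub_zero]
        exact h2
      · exact (h1 _).2 h3
  refine ⟨κ, hκ0, ?_⟩
  intro A
  obtain ⟨c1, X1, hc1, hp1⟩ := hp A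
  obtain ⟨c2, X2, hc2, hi1⟩ := hi A
  obtain ⟨R, hR⟩ := exists_nat_gt (((A + 3 : ℕ) : ℝ) / κ)
  have ht : Filter.Tendsto (fun X : ℕ => (X : ℝ) ^ κ) Filter.atTop Filter.atTop :=
    (tendsto_rpow_atTop hκ0).comp tendsto_natCast_atTop_atTop
  obtain ⟨X3, hX3⟩ := (ht.eventually_ge_atTop 2).exists_forall_of_atTop
  -- the number of prime factors
  have hlen : ∀ (X : ℕ) (m : ℤ), 4 ≤ X → |m| ≤ 3 * (X : ℤ) ^ (A + 1) → Rough ((X : ℝ) ^ κ) m →
      AlmostPrime R ((X : ℝ) ^ κ) m := by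
    intro X m hX hm hr
    refine ⟨hr, ?_⟩
    apply Pool.Agent.Y987.SZ.len_of (X := X) (C := A + 3) hκ0 (by omega)
      (Int.natAbs_ne_zero.2 hr.1) _ hR
    · intro p hp' hd
      exact hr.2 p hp' (Int.natCast_dvd.2 hd)
    · have h1 : (m.natAbs : ℤ) ≤ 3 * (X : ℤ) ^ (A + 1) := by
        rw [Int.natCast_natAbs]
        exact hm
      have h2 : m.natAbs ≤ 3 * X ^ (A + 1) := by exact_mod_cast h1
      refine h2.trans ?_
      calc 3 * X ^ (A + 1) ≤ X ^ 2 * X ^ (A + 1) := Nat.mul_le_mul_right _ (by nlinarith)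
        _ = X ^ (A + 3) := by
          rw [← pow_add]
          congr 1
          omega
  have hpw : ∀ X : ℕ, 4 ≤ X → (X : ℤ) ≤ (X : ℤ) ^ (A + 1) ∧ (X : ℤ) ^ A ≤ (X : ℤ) ^ (A + 1) := by
    intro X hX
    have h1 : (1 : ℤ) ≤ X := by omega
    refine ⟨?_, pow_le_pow_right₀ h1 (Nat.le_succ A)⟩
    calc (X : ℤ) = (X : ℤ) ^ 1 := (pow_one _).symm
      _ ≤ _ := pow_le_pow_right₀ h1 (by omega)
  have hSpos : ∀ d, 0 ≤ Sing d := by
    intro d
    unfold Sing
    apply prod_nonneg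
    intro p hp
    have h3 : (2 : ℝ) < p := by exact_mod_cast (mem_filter.1 hp).2
    apply div_nonneg <;> linarith
  refine ⟨R, max (max X1 X2) (max X3 4), min c1 c2 * c0, by positivity, ?_, ?_⟩
  · intro X hX d hd hev hA
    have g1 : X1 ≤ X := (le_max_left _ _).trans ((le_max_left _ _).trans hX)
    have g2 : X2 ≤ X := (le_max_right _ _).trans ((le_max_left _ _).trans hX)
    have g3 : X3 ≤ X := (le_max_left _ _).trans ((le_max_right _ _).trans hX)
    have g4 : 4 ≤ X := (le_max_right _ _).trans ((le_max_right _ _).trans hX)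
    have hXr : (4 : ℝ) ≤ X := by exact_mod_cast g4
    have hy2 : 2 ≤ (X : ℝ) ^ κ := hX3 X g3
    have hya : (X : ℝ) ^ κ ≤ (X : ℝ) ^ κ1 :=
      Real.rpow_le_rpow_of_exponent_le (by linarith) (min_le_left _ _)
    have hyb : (X : ℝ) ^ κ ≤ (X : ℝ) ^ κ2 :=
      Real.rpow_le_rpow_of_exponent_le (by linarith) (min_le_right _ _)
    obtain ⟨hw1, hw2⟩ := hpw X g4
    have hlog : 0 < Real.log X := Real.log_pos (by linarith)
    have hA' : (d : ℤ) ≤ (X : ℤ) ^ A := by exact_mod_cast hA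
    -- the main terms
    have hmain : ∀ s : ℤ, s = 1 ∨ s = -1 → ∀ c : ℝ, 0 < c → min c1 c2 ≤ c →
        min c1 c2 * c0 * (Sing d * (X / Real.log X ^ 2)) ≤
          c * (Pool.Agent.Y987.SZ.SS {0, s * d} * (X / Real.log X ^ 2)) := by
      intro s hs c hc hcc
      obtain ⟨_, _, h3, _⟩ := hpair d hd hev s hs
      rw [← hSing] at h3
      have h4 : 0 ≤ (X : ℝ) / Real.log X ^ 2 := by positivity
      calc min c1 c2 * c0 * (Sing d * (X / Real.log X ^ 2))
          = min c1 c2 * ((c0 * Sing d) * (X / Real.log X ^ 2)) := by ring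
        _ ≤ c * ((c0 * Sing d) * (X / Real.log X ^ 2)) := by
            apply mul_le_mul_of_nonneg_right hcc
            exact mul_nonneg (mul_nonneg hc0.le (hSpos d)) h4
        _ ≤ _ := by
            apply mul_le_mul_of_nonneg_left _ hc.le
            exact mul_le_mul_of_nonneg_right h3 h4
    have hcount : ∀ s : ℤ, s = 1 ∨ s = -1 → min c1 c2 * c0 * (Sing d * (X / Real.log X ^ 2)) ≤
        (Set.ncard {p : ℕ | p ≤ X ∧ p.Prime ∧ AlmostPrime R ((X : ℝ) ^ κ) ((p : ℤ) - s * d)} : ℝ) := by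
      intro s hs
      have h1 := hp1 X g1 {0, s * d} (by simp) (hshift X A d s hd hev hA hs)
      refine (hmain s hs c1 hc1 (min_le_left _ _)).trans (h1.trans ?_)
      rw [← Set.ncard_coe_finset, Nat.cast_le]
      apply Set.ncard_le_ncard
      · intro n hn
        rw [mem_coe, Pool.Agent.Y987.SZ.mem_PD] at hn
        obtain ⟨⟨_, hn2⟩, hn3, hn4⟩ := hn
        obtain ⟨_, h5⟩ := (hrough _ n _ hy2).1 (hn4.anti hya)
        refine ⟨hn2, hn3, hlen X _ g4 ?_ h5⟩
        rw [abs_le]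
        rcases hs with rfl | rfl <;> constructor <;> omega
      · exact (Set.finite_Iic X).subset (fun n hn => hn.1)
    refine ⟨?_, ?_, ?_⟩
    · have h1 := hcount 1 (Or.inl rfl)
      simp only [one_mul] at h1
      exact h1
    · have h1 := hcount (-1) (Or.inr rfl)
      simp only [neg_one_mul, sub_neg_eq_add] at h1
      exact h1
    · intro N hN
      have h1 := hi1 X N g2 {0, 1 * (d : ℤ)} (hshift X A d 1 hd hev hA (Or.inl rfl))
      refine (hmain 1 (Or.inl rfl) c2 hc2 (min_le_right _ _)).trans (h1.trans ?_)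
      rw [← Set.ncard_coe_finset, Nat.cast_le]
      have hN' : (N : ℤ) ≤ (X : ℤ) ^ A := by exact_mod_cast hN
      apply Set.ncard_le_ncard
      · intro n hn
        rw [mem_coe, Pool.Agent.Y987.SZ.mem_ND] at hn
        obtain ⟨⟨hn1, hn2⟩, hn4⟩ := hn
        obtain ⟨h4, h5⟩ := (hrough _ n _ hy2).1 (hn4.anti hyb)
        rw [one_mul] at h5
        refine ⟨hn1, hn2, hlen X _ g4 ?_ h4, hlen X _ g4 ?_ h5⟩
        · rw [abs_le]
          omega
        · rw [abs_le]
          omega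
      · exact (Set.finite_Icc 0 (N + X)).subset (fun n hn => ⟨Nat.zero_le _, hn.2.1⟩)
  · intro k ε hk hε
    obtain ⟨B, X4, hher⟩ := Pool.Agent.Y987.SZ.her_SS 2 A k hk κ (ε / 2) hκ0 hκle (by positivity)
    refine ⟨B, max X4 X3, ?_⟩
    intro X N hX d hd hev hA T hT
    have hD := hshift X A d 1 hd hev hA (Or.inl rfl)
    have hy2 : 2 ≤ (X : ℝ) ^ κ := hX3 X ((le_max_right _ _).trans hX)
    have hfin : T.Finite := (Set.finite_Icc 0 (N + X)).subset (fun n hn => ⟨Nat.zero_le _, (hT n hn).2.1⟩)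
    have h1 := hher X N ((le_max_left _ _).trans hX) {0, 1 * (d : ℤ)} hD hfin.toFinset (by
      intro n hn
      rw [Set.Finite.mem_toFinset] at hn
      obtain ⟨h2, h3, h4, h5⟩ := hT n hn
      rw [Pool.Agent.Y987.SZ.mem_ND]
      refine ⟨⟨h2, h3⟩, (hrough _ n _ hy2).2 ⟨h4, ?_⟩⟩
      rw [one_mul]
      exact h5)
    have e1 : {n | n ∈ T ∧ ¬ InAP k (Real.log X ^ B) T n} =
        {n | n ∈ hfin.toFinset ∧ ¬ Pool.Agent.Y987.SZ.InAP k (Real.log X ^ B) hfin.toFinset n} := by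
      ext n
      constructor
      · rintro ⟨h2, h3⟩
        refine ⟨hfin.mem_toFinset.2 h2, ?_⟩
        rintro ⟨a', q, h4, h5, h6, h7⟩
        exact h3 ⟨a', q, h4, h5, fun j hj => hfin.mem_toFinset.1 (h6 j hj), h7⟩
      · rintro ⟨h2, h3⟩
        refine ⟨hfin.mem_toFinset.1 h2, ?_⟩
        rintro ⟨a', q, h4, h5, h6, h7⟩
        exact h3 ⟨a', q, h4, h5, fun j hj => hfin.mem_toFinset.2 (h6 j hj), h7⟩
    rw [e1]
    refine h1.trans ?_
    obtain ⟨_, _, _, h3⟩ := hpair d hd hev 1 (Or.inl rfl)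
    rw [← hSing] at h3
    have hlp : 0 ≤ (X : ℝ) / Real.log X ^ 2 := by positivity
    calc ε / 2 * (Pool.Agent.Y987.SZ.SS {0, 1 * (d : ℤ)} * (X / Real.log X ^ 2))
        ≤ ε / 2 * ((2 * Sing d) * (X / Real.log X ^ 2)) := by
          apply mul_le_mul_of_nonneg_left _ (by positivity)
          exact mul_le_mul_of_nonneg_right h3 hlp
      _ = _ := by ring

end Pool.Agent.Results.MP_678834_nt.UniformNarrowProgressions
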