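import Pool.Agent.Y879.AP.Mean2
import Pool.Agent.Y879.GL.Pattern

set_option autoImplicit false

/-!
Pairs of almost primes with difference `d` in residue classes, uniformly in ALL even numbers `d` and ALL
moduli `q > d` up to any given power of `X`: the number of the almost prime pairs `(n, n + d)` with
`n = b + q, b + 2 q, ..., b + T q` is Poisson distributed when `b` runs through the admissible residue
classes modulo `q`, or through the admissible integers in an interval of length at least `X ^ θ`.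
-/

namespace Pool.Agent.Results.MP_678834_nt.UniformPairsInClasses

open Finset Filter
open Pool.Agent.Y879.AP Pool.Agent.W123.RP Pool.Agent.H373R2.T7
open Pool.Agent.TH464.PO Pool.Agent.TH464.PW

/-- neither `n` nor `n + d` has a prime factor `p ≤ X ^ (1 / r)` -/
def Good (X d r n : ℕ) : Prop :=
  ∀ p : ℕ, p.Prime → (p : ℝ) ≤ (X : ℝ) ^ (1 / (r : ℝ)) → ¬ p ∣ n ∧ ¬ p ∣ n + d

/-- the number of the residue classes `0` and `-d` modulo `p` -/
def nu (d p : ℕ) : ℕ := if p ∣ d then 1 else 2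

/-- the product of `1 - nu(p) / p` over the primes `p ≤ X ^ (1 / r)` not dividing `q` -/
noncomputable def V (X d q r : ℕ) : ℝ :=
  ∏ p ∈ ((Icc 1 ⌊(X : ℝ) ^ (1 / (r : ℝ))⌋₊).filter Nat.Prime).filter (fun p => ¬ p ∣ q), (1 - (nu d p : ℝ) / p)

/-- the proportion of the classes `b` modulo `q` with `b` and `b + d` prime to `q` -/
noncomputable def rho (d q : ℕ) : ℝ := ∏ p ∈ q.primeFactors, (1 - (nu d p : ℝ) / p)

/-- the singular series of the pairs with difference `d`, truncated at `X ^ (1 / r)` -/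
noncomputable def Sing (X d r : ℕ) : ℝ :=
  ∏ p ∈ (Icc 1 ⌊(X : ℝ) ^ (1 / (r : ℝ))⌋₊).filter Nat.Prime, (1 - (nu d p : ℝ) / p) / (1 - 1 / (p : ℝ)) ^ 2

open Classical in
/-- the number of the `n = b + q, b + 2 q, ..., b + T q` with `Good X d r n` -/
noncomputable def Num (X d q r T b : ℕ) : ℕ := ((Icc 1 T).filter (fun t => Good X d r (b + q * t))).card

lemma he : (1 : ℤ) * 1 = 1 := by norm_num

lemma nuB_eq (d p : ℕ) (hp : p.Prime) : nuB (Q2 1 (d : ℤ)) p = nu d p := by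
  rw [nuB_Q2 _ _ he p hp]
  unfold nu2 nu
  by_cases h : p ∣ d
  · rw [if_pos h, if_pos (Int.natCast_dvd_natCast.2 h)]
  · rw [if_neg h, if_neg (fun h2 => h (Int.natCast_dvd_natCast.1 h2))]

lemma notQ (d p n : ℕ) (hp : p.Prime) : ¬ Q2 1 (d : ℤ) p n ↔ ¬ p ∣ n ∧ ¬ p ∣ n + d := by
  unfold Q2
  have hpi : Prime (p : ℤ) := Nat.prime_iff_prime_int.1 hp
  rw [hpi.dvd_mul, not_or, show (1 : ℤ) * n + d = ((n + d : ℕ) : ℤ) by push_cast; ring,
    Int.natCast_dvd_natCast, Int.natCast_dvd_natCast]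

lemma good_iff (X d r n : ℕ) : Good X d r n ↔ Sf (Q2 1 (d : ℤ)) ⌊(X : ℝ) ^ (1 / (r : ℝ))⌋₊ n := by
  unfold Good Sf
  constructor
  · intro h p hp
    obtain ⟨hp1, hp2⟩ := mem_pz.1 hp
    exact (notQ d p n hp2).2 (h p hp2 ((Nat.le_floor_iff (by positivity)).1 hp1))
  · intro h p hp hpr
    exact (notQ d p n hp).1 (h p (mem_pz.2 ⟨Nat.le_floor hpr, hp⟩))

lemma V_eq (X d q r : ℕ) : V X d q r = Vq (Qn (Q2 1 (d : ℤ)) q) ⌊(X : ℝ) ^ (1 / (r : ℝ))⌋₊ := by
  unfold V Vq
  rw [Finset.prod_filter]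
  apply Finset.prod_congr rfl
  intro p hp
  have hpp := (mem_pz.1 hp).2
  by_cases h : p ∣ q
  · rw [if_neg (by simpa using h), nuB_Qn_dvd _ _ _ h]
    simp
  · rw [if_pos h, nuB_Qn_not _ _ _ h, nuB_eq d p hpp]

lemma rho_eq (d q : ℕ) : rho d q = RD (Q2 1 (d : ℤ)) q := by
  unfold rho RD
  apply Finset.prod_congr rfl
  intro p hp
  rw [nuB_eq d p (Nat.prime_of_mem_primeFactors hp)]

lemma Sing_eq (X d r : ℕ) : Sing X d r = SS (Q2 1 (d : ℤ)) 2 ⌊(X : ℝ) ^ (1 / (r : ℝ))⌋₊ := by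
  unfold Sing SS
  apply Finset.prod_congr rfl
  intro p hp
  rw [nuB_eq d p (mem_pz.1 hp).2]

lemma red_iff (d q b : ℕ) : Red (Q2 1 (d : ℤ)) q b ↔ b.Coprime q ∧ (b + d).Coprime q := by
  unfold Red
  constructor
  · intro h
    constructor
    · apply Nat.coprime_of_dvd
      intro p hp h1 h2
      exact ((notQ d p b hp).1 (h p hp h2)).1 h1
    · apply Nat.coprime_of_dvd
      intro p hp h1 h2
      exact ((notQ d p b hp).1 (h p hp h2)).2 h1
  · rintro ⟨h1, h2⟩ p hp hpq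
    rw [notQ d p b hp]
    constructor
    · intro h3
      have h4 := Nat.dvd_gcd h3 hpq
      rw [h1] at h4
      exact hp.one_lt.ne' (Nat.dvd_one.1 h4)
    · intro h3
      have h4 := Nat.dvd_gcd h3 hpq
      rw [h2] at h4
      exact hp.one_lt.ne' (Nat.dvd_one.1 h4)

open Classical in
/-- **The Poisson law for pairs of almost primes in residue classes, uniformly in the difference and the
modulus.** For all `K ≥ 1`, `θ, ε > 0` and `x₀` there is `r₀` such that for all `r ≥ r₀` there is `X₀`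
such that for all `X ≥ X₀`, ALL even `d ≥ 2` and ALL moduli `q` with `d < q ≤ X ^ K`:
(1) if `0 < n`, `n + d ≤ X ^ (2 K)` and `Good X d r n`, then `n` and `n + d` have at most `2 K r` prime
factors; (2) `V rho log ^ 2 X = ((r e ^ (-γ)) ^ 2 + η) Sing` with `|η| ≤ ε`; (3) in every interval
`(u, u + Y]` with `Y ≥ X ^ θ`, for all `T` with `T V ≤ x₀` and all finite sets `A` of natural numbers,
the number of the `b` with `b` and `b + d` prime to `q` for which the number of the good `n` among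
`b + q, ..., b + T q` lies in `A` is `Y rho (∑ j ∈ A, e ^ (-T V) (T V) ^ j / j! + η)` with `|η| ≤ ε`. -/
theorem result (K : ℕ) (hK : 1 ≤ K) (θ x₀ ε : ℝ) (hθ : 0 < θ) (hε : 0 < ε) :
    ∃ r₀ : ℕ, ∀ r : ℕ, r₀ ≤ r → ∃ X₀ : ℕ, ∀ X : ℕ, X₀ ≤ X → ∀ d q : ℕ, 2 ≤ d → Even d → d < q →
      q ≤ X ^ K →
      (∀ n : ℕ, 0 < n → n + d ≤ X ^ (2 * K) → Good X d r n →
        n.primeFactorsList.length ≤ 2 * K * r ∧ (n + d).primeFactorsList.length ≤ 2 * K * r) ∧
      |V X d q r * rho d q * Real.log X ^ 2 -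
        (r * Real.exp (-Real.eulerMascheroniConstant)) ^ 2 * Sing X d r| ≤ ε * Sing X d r ∧
      ∀ u Y T : ℕ, (X : ℝ) ^ θ ≤ Y → T * V X d q r ≤ x₀ → ∀ A : Finset ℕ,
        |(((Ioc u (u + Y)).filter (fun b : ℕ => b.Coprime q ∧ (b + d).Coprime q ∧
            Num X d q r T b ∈ A)).card : ℝ) -
          Y * rho d q * ∑ j ∈ A, Real.exp (-(T * V X d q r)) * (T * V X d q r) ^ j / j.factorial| ≤
          ε * (Y * rho d q) := by
  have hKr : (1 : ℝ) ≤ K := by exact_mod_cast hK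
  obtain ⟨r0, hr02, hlaw⟩ := pair_law K 1 θ x₀ ε (by linarith) one_pos hθ hε
  refine ⟨r0, ?_⟩
  intro r hr
  have hr2 : 2 ≤ r := hr02.trans hr
  obtain ⟨N0, hN0⟩ := eventually_atTop.1 ((hlaw r hr).and
    ((mean_gen 2 2 K (by linarith) r hr2 ε hε).and (Pool.Agent.Y879.GL.level_ok r hr2)))
  refine ⟨max N0 2, ?_⟩
  intro X hX d q hd hev hdq hqX
  obtain ⟨h1, h2, h3⟩ := hN0 X ((le_max_left _ _).trans hX)
  have hX2 : 2 ≤ X := (le_max_right _ _).trans hX
  have hX2r : (2 : ℝ) ≤ X := by exact_mod_cast hX2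
  have hXpos : (0 : ℝ) < X := by linarith
  have hrr : (2 : ℝ) ≤ r := by exact_mod_cast hr2
  have hevZ : Even (d : ℤ) := by exact_mod_cast hev
  have hqXr : (q : ℝ) ≤ (X : ℝ) ^ (K : ℝ) := by
    rw [Real.rpow_natCast]
    exact_mod_cast hqX
  have hdXr : (d : ℝ) ≤ (X : ℝ) ^ (K : ℝ) := by
    refine le_trans ?_ hqXr
    exact_mod_cast hdq.le
  have hq1 : 1 ≤ q := by omega
  refine ⟨?_, ?_, ?_⟩
  · intro n hn hnX hg
    have hz3 : (3 : ℝ) ≤ (X : ℝ) ^ (1 / (r : ℝ)) := by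
      have h4 : ((3 : ℕ) : ℝ) ≤ (X : ℝ) ^ (1 / (r : ℝ)) :=
        (Nat.le_floor_iff (by positivity)).1 h3.1
      exact_mod_cast h4
    have hpow : ((X : ℝ) ^ (1 / (r : ℝ))) ^ (2 * K * r) = (X : ℝ) ^ (2 * K) := by
      have hrne : (r : ℝ) ≠ 0 := by linarith
      rw [← Real.rpow_natCast ((X : ℝ) ^ (1 / (r : ℝ))), ← Real.rpow_mul hXpos.le,
        ← Real.rpow_natCast]
      congr 1
      push_cast
      field_simp
    constructor
    · refine Pool.Agent.Y879.GL.few_of_rough ((X : ℝ) ^ (1 / (r : ℝ))) (by linarith) n _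
        (by omega) ?_ ?_
      · rw [hpow]
        exact_mod_cast (Nat.le_add_right n d).trans hnX
      · intro p hp hpn
        by_contra hcon
        rw [not_lt] at hcon
        exact (hg p hp hcon).1 hpn
    · refine Pool.Agent.Y879.GL.few_of_rough ((X : ℝ) ^ (1 / (r : ℝ))) (by linarith) (n + d) _
        (by omega) ?_ ?_
      · rw [hpow]
        exact_mod_cast hnX
      · intro p hp hpn
        by_contra hcon
        rw [not_lt] at hcon
        exact (hg p hp hcon).2 hpn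
  · rw [V_eq, rho_eq, Sing_eq]
    exact h2 (Q2 1 (d : ℤ)) q (perB_Q2 _ _ he) (adm_Q2 _ _ he hevZ) hq1 hqXr
  · intro u Y T hY hT A
    rw [V_eq] at hT ⊢
    rw [rho_eq]
    have h4 := h1 1 (d : ℤ) q he hevZ (by exact_mod_cast (by omega : d ≠ 0))
      (by
        push_cast
        rw [abs_of_nonneg (by positivity)]
        exact hdXr) hq1 hqXr
      (by
        intro t ht _ h7
        have h8 : (d : ℤ) < q * t := by
          have h9 : d < q * t := lt_of_lt_of_le hdq (Nat.le_mul_of_pos_right q ht)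
          exact_mod_cast h9
        have h9 : (0 : ℤ) ≤ d := by positivity
        nlinarith)
      u Y hY T hT A
    have hcard : ((Ioc u (u + Y)).filter (fun b : ℕ => b.Coprime q ∧ (b + d).Coprime q ∧
            Num X d q r T b ∈ A)).card = ((Ioc u (u + Y)).filter (fun n => Red (Q2 1 (d : ℤ)) q n ∧
        Ws (Q2 1 (d : ℤ)) q ⌊(X : ℝ) ^ (1 / (r : ℝ))⌋₊ T n ∈ A)).card := by
      apply card_iff
      intro b _
      rw [red_iff d q b, and_assoc]
      refine and_congr Iff.rfl (and_congr Iff.rfl ?_)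
      have h10 : Num X d q r T b = Ws (Q2 1 (d : ℤ)) q ⌊(X : ℝ) ^ (1 / (r : ℝ))⌋₊ T b := by
        unfold Num Ws
        exact card_iff _ _ (fun t _ => good_iff X d r (b + q * t))
      rw [h10]
    rw [hcard]
    exact h4

end Pool.Agent.Results.MP_678834_nt.UniformPairsInClasses
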